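import Mathlib

/-!
# Project RO: statements of the modules (MP_612f91_an, full positive answer to Q1)

Each `S_...` below is a proposition; a module file proves it as `theorem main_...`.
-/

open MeasureTheory Set
open scoped ENNReal NNReal InnerProductSpace

namespace Pool.Agent.R280.RO

universe u v

section defs

variable {X : Type*} [MeasurableSpace X]

/-- `f` vanishes almost everywhere outside `A`. -/
def SuppIn {μ : Measure X} (f : Lp ℂ 2 μ) (A : Set X) : Prop :=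
  ∀ᵐ x ∂μ, x ∉ A → f x = 0

/-- The operator `a` expands supports at most by the factor `lam`. -/
def Expand (μ : Measure X) (lam : ℝ≥0) (a : Lp ℂ 2 μ →L[ℂ] Lp ℂ 2 μ) : Prop :=
  ∀ A, MeasurableSet A → ∃ B, MeasurableSet B ∧ μ B ≤ lam * μ A ∧
    ∀ f : Lp ℂ 2 μ, SuppIn f A → SuppIn (a f) B

/-- Bounded support expansion: `a` and its adjoint expand supports by a bounded factor. -/
def BSE (μ : Measure X) (a : Lp ℂ 2 μ →L[ℂ] Lp ℂ 2 μ) : Prop :=
  ∃ lam : ℝ≥0, Expand μ lam a ∧ Expand μ lam (ContinuousLinearMap.adjoint a)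

end defs

/-! ## M2: abstract spatial theorem -/

/-- Property (1): every nonzero vector is non-orthogonal to some `ξ` with `ξ ⊗ ξ* ∈ 𝒜`. -/
def Prop1 {H : Type*} [NormedAddCommGroup H] [InnerProductSpace ℂ H] [CompleteSpace H]
    (𝒜 : StarSubalgebra ℂ (H →L[ℂ] H)) : Prop :=
  ∀ ζ : H, ζ ≠ 0 → ∃ ξ : H, InnerProductSpace.rankOne ℂ ξ ξ ∈ 𝒜 ∧ inner ℂ ξ ζ ≠ 0

/-- Gram lemma: two total families with the same Gram matrix are unitarily equivalent. -/
def S_GRAM : Prop :=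
  ∀ (H : Type u) [NormedAddCommGroup H] [InnerProductSpace ℂ H] [CompleteSpace H]
    (K : Type v) [NormedAddCommGroup K] [InnerProductSpace ℂ K] [CompleteSpace K]
    (ι : Type u) (x : ι → H) (y : ι → K),
    (∀ i j, inner ℂ (x i) (x j) = inner ℂ (y i) (y j)) →
    (∀ z : H, (∀ i, inner ℂ (x i) z = 0) → z = 0) →
    (∀ z : K, (∀ i, inner ℂ (y i) z = 0) → z = 0) →
    ∃ U : H ≃ₗᵢ[ℂ] K, ∀ i, U (x i) = y i

/-- Abstract spatial theorem. -/
def S_M2 : Prop :=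
  ∀ (H : Type u) [NormedAddCommGroup H] [InnerProductSpace ℂ H] [CompleteSpace H]
    (K : Type v) [NormedAddCommGroup K] [InnerProductSpace ℂ K] [CompleteSpace K]
    (𝒜 : StarSubalgebra ℂ (H →L[ℂ] H)) (ℬ : StarSubalgebra ℂ (K →L[ℂ] K)),
    Prop1 𝒜 → Prop1 ℬ → ∀ Φ : 𝒜 ≃⋆ₐ[ℂ] ℬ,
    ∃ U : H ≃ₗᵢ[ℂ] K, ∀ (a : 𝒜) (x : H), (Φ a : K →L[ℂ] K) (U x) = U ((a : H →L[ℂ] H) x)

/-! ## M3: spectral gap -/

/-- Left translation on `F₂ × J`. -/
def tr {J : Type v} (g : FreeGroup (Fin 2)) :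
    (FreeGroup (Fin 2) × J) ≃ (FreeGroup (Fin 2) × J) :=
  (Equiv.mulLeft g).prodCongr (Equiv.refl J)

/-- `T` and its adjoint permute the orthonormal family `w` through the permutation `σ` of the
index set, and both vanish on the orthogonal complement of the family. -/
structure Permutes {H : Type*} [NormedAddCommGroup H] [InnerProductSpace ℂ H] [CompleteSpace H]
    {I : Type*} (w : Finset I → H) (σ : I ≃ I) (T : H →L[ℂ] H) : Prop where
  apply : ∀ F, T (w F) = w (F.map σ.toEmbedding)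
  adj : ∀ F, ContinuousLinearMap.adjoint T (w F) = w (F.map σ.symm.toEmbedding)
  zero : ∀ x, (∀ F, inner ℂ (w F) x = 0) → T x = 0
  adj_zero : ∀ x, (∀ F, inner ℂ (w F) x = 0) → ContinuousLinearMap.adjoint T x = 0

/-- M3: combinatorial displacement estimate. For `a, b` the free generators acting on `F₂ × J`
by left translation, every vector `x` in the closed span of the family `w`, orthogonal to `w ∅`,
is displaced by `Ta` or by `Tb` by at least `‖x‖ / 4`. -/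
def S_GAP : Prop :=
  ∀ (H : Type u) [NormedAddCommGroup H] [InnerProductSpace ℂ H] [CompleteSpace H]
    (J : Type v) (w : Finset (FreeGroup (Fin 2) × J) → H), Orthonormal ℂ w →
    ∀ (Ta Tb : H →L[ℂ] H), Permutes w (tr (FreeGroup.of 0)) Ta →
      Permutes w (tr (FreeGroup.of 1)) Tb →
    ∀ x : H, (∀ z, (∀ F, inner ℂ (w F) z = 0) → inner ℂ x z = 0) → inner ℂ (w ∅) x = 0 →
      ‖x‖ ≤ 4 * ‖Ta x - x‖ ∨ ‖x‖ ≤ 4 * ‖Tb x - x‖

/-- M3': consequently the rank one projection onto `w ∅` lies in every closed star subalgebra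
containing `Ta`, `Tb` and the identity of the closed span. -/
def S_M3 : Prop :=
  ∀ (H : Type u) [NormedAddCommGroup H] [InnerProductSpace ℂ H] [CompleteSpace H]
    (J : Type v) (w : Finset (FreeGroup (Fin 2) × J) → H), Orthonormal ℂ w →
    ∀ (Q Ta Tb : H →L[ℂ] H), Permutes w (Equiv.refl _) Q →
      Permutes w (tr (FreeGroup.of 0)) Ta → Permutes w (tr (FreeGroup.of 1)) Tb →
    ∀ 𝒜 : StarSubalgebra ℂ (H →L[ℂ] H), IsClosed (𝒜 : Set (H →L[ℂ] H)) →
      Q ∈ 𝒜 → Ta ∈ 𝒜 → Tb ∈ 𝒜 → InnerProductSpace.rankOne ℂ (w ∅) (w ∅) ∈ 𝒜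

/-! ## M4: Walsh system and coordinate permutations -/

/-- `c` is an independent family of sets of conditional measure `1/2` in `B`. -/
def Indep {X : Type*} [MeasurableSpace X] (μ : Measure X) (B : Set X) {I : Type*}
    (c : I → Set X) : Prop :=
  ∀ F : Finset I, μ (B ∩ ⋂ i ∈ F, c i) = (2⁻¹ : ℝ≥0∞) ^ F.card * μ B

/-- the sets `C` of the collection `𝒞` generate the measurable subsets of `B` modulo null sets. -/
def Gen {X : Type*} [MeasurableSpace X] (μ : Measure X) (B : Set X) (𝒞 : Set (Set X)) : Prop :=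
  ∀ D, MeasurableSet D → ∃ D', MeasurableSet[MeasurableSpace.generateFrom 𝒞] D' ∧
    μ (symmDiff D D' ∩ B) = 0

def S_M4 : Prop :=
  ∀ (X : Type u) [MeasurableSpace X] (μ : Measure X) (B : Set X) (I : Type v) (c : I → Set X),
    MeasurableSet B → μ B ≠ 0 → μ B ≠ ∞ → (∀ i, MeasurableSet (c i)) →
    Indep μ B c → Gen μ B (range c) →
    ∃ w : Finset I → Lp ℂ 2 μ, Orthonormal ℂ w ∧ (∀ F, SuppIn (w F) B) ∧
      (∀ f : Lp ℂ 2 μ, SuppIn f B → (∀ F, inner ℂ (w F) f = 0) → f = 0) ∧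
      ∀ σ : I ≃ I, ∃ T : Lp ℂ 2 μ →L[ℂ] Lp ℂ 2 μ, Permutes w σ T ∧
        Expand μ 1 T ∧ Expand μ 1 (ContinuousLinearMap.adjoint T)

/-! ## M5: measure theory (Maharam-lite) -/

/-- Relative atomlessness of the ambient σ-algebra over the sub-σ-algebra `m`, on all nonnull
measurable subsets of `B`. -/
def RelAtomless {X : Type*} (m : MeasurableSpace X) [m0 : MeasurableSpace X] (ρ : Measure X)
    (B : Set X) : Prop :=
  ∀ D, MeasurableSet D → D ⊆ B → ρ D ≠ 0 → ∃ e, MeasurableSet e ∧ e ⊆ D ∧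
    ∀ b', MeasurableSet[m] b' → ρ (symmDiff e (D ∩ b')) ≠ 0

/-- Lemma A (Fremlin 331B). -/
def S_A : Prop :=
  ∀ (X : Type u) (m : MeasurableSpace X) [m0 : MeasurableSpace X] (ρ : Measure X)
    [IsFiniteMeasure ρ], m ≤ m0 → ∀ b : Set X, MeasurableSet b → RelAtomless m ρ b →
    ∀ (ν : Measure X) [IsFiniteMeasure ν],
    (∀ E, MeasurableSet[m] E → ν E ≤ ρ (b ∩ E)) →
    ∃ c, c ⊆ b ∧ MeasurableSet c ∧ ∀ E, MeasurableSet[m] E → ρ (c ∩ E) = ν E

/-- `Q m ρ B b ε`: up to a subset of `B` of measure `≤ ε`, the set `b` is decided by `m`. -/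
def Q {X : Type*} (m : MeasurableSpace X) [m0 : MeasurableSpace X] (ρ : Measure X) (B : Set X)
    (b : Set X) (ε : ℝ≥0∞) : Prop :=
  ∃ E₁ E₀, MeasurableSet[m] E₁ ∧ MeasurableSet[m] E₀ ∧ ρ (B ∩ (E₁ \ b)) = 0 ∧
    ρ (B ∩ (E₀ ∩ b)) = 0 ∧ ρ (B \ (E₁ ∪ E₀)) ≤ ε

/-- `c` is a good choice at a stage where `m` has been constructed and `b` is visited. -/
def Good {X : Type*} (m : MeasurableSpace X) [m0 : MeasurableSpace X] (ρ : Measure X) (B : Set X)
    (b : Set X) (c : Set X) : Prop :=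
  MeasurableSet c ∧ (∀ E, MeasurableSet[m] E → ρ (B ∩ (c ∩ E)) = 2⁻¹ * ρ (B ∩ E)) ∧
    ∀ ε, Q m ρ B b ε → Q (m ⊔ MeasurableSpace.generateFrom {c}) ρ B b (2⁻¹ * ε)

/-- Stage lemma. -/
def S_STAGE : Prop :=
  ∀ (X : Type u) (m : MeasurableSpace X) [m0 : MeasurableSpace X] (ρ : Measure X)
    [IsFiniteMeasure ρ] (B : Set X), MeasurableSet B → m ≤ m0 → RelAtomless m ρ B →
    ∀ b : Set X, MeasurableSet b → ∃ c, Good m ρ B b c

/-- Transfinite recursion: if `B` is generated by `𝒞`, infinite, and no sub-σ-algebra generated by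
fewer than `#𝒞` sets generates a nonnull part of `B`, there is an independent generating family. -/
def S_REC : Prop :=
  ∀ (X : Type u) [MeasurableSpace X] (ρ : Measure X) [IsFiniteMeasure ρ] (B : Set X)
    (𝒞 : Set (Set X)), MeasurableSet B → (∀ C ∈ 𝒞, MeasurableSet C) → Gen ρ B 𝒞 → 𝒞.Infinite →
    (∀ 𝒞' : Set (Set X), (∀ C ∈ 𝒞', MeasurableSet C) → Cardinal.mk 𝒞' < Cardinal.mk 𝒞 →
      RelAtomless (MeasurableSpace.generateFrom 𝒞') ρ B) →
    ∃ (I : Type u) (c : I → Set X), Infinite I ∧ (∀ i, MeasurableSet (c i)) ∧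
      Indep ρ B c ∧ Gen ρ B (range c)

/-- M5. -/
def S_M5 : Prop :=
  ∀ (X : Type u) [MeasurableSpace X] (μ : Measure X) (A : Set X), MeasurableSet A → μ A ≠ 0 →
    μ A ≠ ∞ →
    (∀ D, MeasurableSet D → D ⊆ A → μ D ≠ 0 → ∃ E, MeasurableSet E ∧ E ⊆ D ∧ μ E ≠ 0 ∧
      μ (D \ E) ≠ 0) →
    ∃ (B : Set X) (I : Type u) (c : I → Set X), Infinite I ∧ MeasurableSet B ∧ B ⊆ A ∧
      μ B ≠ 0 ∧ (∀ i, MeasurableSet (c i)) ∧ Indep μ B c ∧ Gen μ B (range c)

end Pool.Agent.R280.RO
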